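import Mathlib

set_option autoImplicit false

open Filter Topology Function
open scoped ComplexConjugate

namespace Pool.Agent.W738.RZ

/-- The exponential `e(x) = exp (2 π i x)`. -/
noncomputable def e (x : ℝ) : ℂ := Complex.exp (2 * (Real.pi : ℂ) * Complex.I * (x : ℂ))

/-- The Zak transform `Zf(t, ξ) = ∑_k f(t + k) e(k ξ)`. -/
noncomputable def zak (f : ℝ → ℂ) (t ξ : ℝ) : ℂ := ∑' k : ℤ, f (t + k) * e (k * ξ)

/-- The symbol `D(ξ) = ∑_k d_k e(k ξ)` of a finitely supported sequence. -/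
noncomputable def symbol (d : ℤ →₀ ℂ) (ξ : ℝ) : ℂ := d.sum fun k a => a * e (k * ξ)

/-- `φ` is a nonzero continuous compactly supported function which satisfies the dilation equation
`φ(t/2) = ∑_k d_k φ(t - k)`. -/
structure Refinable (φ : ℝ → ℂ) (d : ℤ →₀ ℂ) : Prop where
  ne : φ ≠ 0
  cont : Continuous φ
  supp : HasCompactSupport φ
  dil : ∀ t : ℝ, φ (t / 2) = d.sum fun k a => a * φ (t - k)

/-- The symbol has a pair of symmetric zeros. -/
def SymmetricZeros (d : ℤ →₀ ℂ) : Prop :=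
  ∃ ξ : ℝ, ξ ∈ Set.Ico (0 : ℝ) 1 ∧ symbol d ξ = 0 ∧ symbol d (ξ + 1 / 2) = 0

end Pool.Agent.W738.RZ
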