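import Pool.Agent.W738.RZ.Defs

set_option autoImplicit false

open Filter Topology Function
open scoped ComplexConjugate

namespace Pool.Agent.W738.RZ

lemma e_add (x y : ℝ) : e (x + y) = e x * e y := by
  unfold e; rw [← Complex.exp_add]; congr 1; push_cast; ring

lemma e_int (k : ℤ) : e k = 1 := by
  unfold e
  rw [Complex.exp_eq_one_iff]
  exact ⟨k, by push_cast; ring⟩

lemma e_half_int (k : ℤ) : e (k * (1 / 2)) = (-1) ^ k.natAbs := by
  rcases Int.even_or_odd' k with ⟨m, rfl | rfl⟩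
  · have : ((2 * m : ℤ) : ℝ) * (1 / 2) = ((m : ℤ) : ℝ) := by push_cast; ring
    rw [this, e_int]
    symm
    apply Even.neg_one_pow
    rw [Int.natAbs_even]; exact even_two_mul m
  · have : ((2 * m + 1 : ℤ) : ℝ) * (1 / 2) = ((m : ℤ) : ℝ) + 1 / 2 := by push_cast; ring
    rw [this, e_add, e_int, one_mul]
    have h1 : e (1 / 2) = -1 := by
      unfold e
      have : (2 * (Real.pi : ℂ) * Complex.I * ((1 / 2 : ℝ) : ℂ)) = Real.pi * Complex.I := by
        push_cast; ring
      rw [this, Complex.exp_pi_mul_I]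
    rw [h1]
    symm
    apply Odd.neg_one_pow
    rw [Int.natAbs_odd]; exact odd_two_mul_add_one m

/-- finitely many `k` contribute for `t` in a bounded set -/
lemma finite_supp {φ : ℝ → ℂ} (h : HasCompactSupport φ) (t : ℝ) :
    (support fun k : ℤ => φ (t + k)).Finite := by
  obtain ⟨R, hR⟩ := h.isCompact.isBounded.subset_closedBall 0
  have : (support fun k : ℤ => φ (t + k)) ⊆ Set.Icc (⌊-R - t⌋) (⌈R - t⌉) := by
    intro k hk
    have h1 : t + (k : ℝ) ∈ tsupport φ := subset_tsupport _ (by simpa using hk)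
    have h2 := hR h1
    rw [Metric.mem_closedBall, Real.dist_eq, sub_zero, abs_le] at h2
    constructor
    · have : ((⌊-R - t⌋ : ℤ) : ℝ) ≤ k := le_trans (Int.floor_le _) (by linarith)
      exact_mod_cast this
    · have : (k : ℝ) ≤ ((⌈R - t⌉ : ℤ) : ℝ) := le_trans (by linarith) (Int.le_ceil _)
      exact_mod_cast this
  exact (Set.finite_Icc _ _).subset this

lemma summable_zak {φ : ℝ → ℂ} (h : HasCompactSupport φ) (t ξ : ℝ) :
    Summable fun k : ℤ => φ (t + k) * e (k * ξ) := by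
  apply summable_of_hasFiniteSupport
  refine (finite_supp h t).subset ?_
  intro k hk
  simp only [mem_support, ne_eq, mul_eq_zero, not_or] at hk ⊢
  exact hk.1

lemma continuous_zak {φ : ℝ → ℂ} (hc : Continuous φ) (h : HasCompactSupport φ) (ξ : ℝ) :
    Continuous fun t => zak φ t ξ := by
  have h1 : (fun t => zak φ t ξ) = fun t => ∑ᶠ k : ℤ, φ (t + k) * e (k * ξ) := by
    funext t
    unfold zak
    apply tsum_eq_finsum
    refine (finite_supp h t).subset ?_
    intro k hk
    simp only [mem_support, ne_eq, mul_eq_zero, not_or] at hk ⊢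
    exact hk.1
  rw [h1]
  apply continuous_finsum
  · intro k
    exact (hc.comp (continuous_id.add continuous_const)).mul continuous_const
  · intro t
    refine ⟨Metric.ball t 1, Metric.ball_mem_nhds t one_pos, ?_⟩
    obtain ⟨R, hR⟩ := h.isCompact.isBounded.subset_closedBall 0
    refine (Set.finite_Icc (⌊-R - t - 1⌋) (⌈R - t + 1⌉)).subset ?_
    rintro k ⟨s, hs1, hs2⟩
    have hs1' : φ (s + k) ≠ 0 := by
      intro h0; apply hs1; simp [h0]
    have h1 : s + (k : ℝ) ∈ tsupport φ := subset_tsupport _ (by simpa using hs1')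
    have h2 := hR h1
    rw [Metric.mem_closedBall, Real.dist_eq, sub_zero, abs_le] at h2
    rw [Metric.mem_ball, Real.dist_eq, abs_lt] at hs2
    constructor
    · have : ((⌊-R - t - 1⌋ : ℤ) : ℝ) ≤ k := le_trans (Int.floor_le _) (by linarith)
      exact_mod_cast this
    · have : (k : ℝ) ≤ ((⌈R - t + 1⌉ : ℤ) : ℝ) := le_trans (by linarith) (Int.le_ceil _)
      exact_mod_cast this

lemma zak_add_one (φ : ℝ → ℂ) (t ξ : ℝ) : zak φ (t + 1) ξ = e (-ξ) * zak φ t ξ := by
  unfold zak
  rw [← tsum_mul_left]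
  rw [← (Equiv.addRight (1 : ℤ)).tsum_eq (fun k : ℤ => e (-ξ) * (φ (t + k) * e (k * ξ)))]
  apply tsum_congr
  intro k
  simp only [Equiv.coe_addRight]
  have : e (((k + 1 : ℤ) : ℝ) * ξ) = e (k * ξ) * e ξ := by
    rw [← e_add]; congr 1; push_cast; ring
  rw [this]
  have h2 : e (-ξ) * e ξ = 1 := by
    rw [← e_add]; simp [e]
  have h3 : t + 1 + (k : ℝ) = t + ((k + 1 : ℤ) : ℝ) := by push_cast; ring
  rw [h3]
  linear_combination (- φ (t + ((k + 1 : ℤ) : ℝ)) * e (k * ξ)) * h2

lemma zak_add_int (φ : ℝ → ℂ) (t ξ : ℝ) (m : ℤ) : zak φ t (ξ + m) = zak φ t ξ := by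
  unfold zak
  apply tsum_congr
  intro k
  have : e (k * (ξ + m)) = e (k * ξ) := by
    have : (k : ℝ) * (ξ + m) = k * ξ + ((k * m : ℤ) : ℝ) := by push_cast; ring
    rw [this, e_add, e_int, mul_one]
  rw [this]

lemma symbol_add_int (d : ℤ →₀ ℂ) (ξ : ℝ) (m : ℤ) : symbol d (ξ + m) = symbol d ξ := by
  unfold symbol
  apply Finsupp.sum_congr
  intro k _
  have : e (k * (ξ + m)) = e (k * ξ) := by
    have : (k : ℝ) * (ξ + m) = k * ξ + ((k * m : ℤ) : ℝ) := by push_cast; ring
    rw [this, e_add, e_int, mul_one]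
  rw [this]

/-- `D(ξ) Zφ(t, ξ)` as a single sum -/
lemma symbol_mul_zak {φ : ℝ → ℂ} (h : HasCompactSupport φ) (d : ℤ →₀ ℂ) (t ξ : ℝ) :
    symbol d ξ * zak φ t ξ
      = ∑' l : ℤ, (d.sum fun k a => a * φ (t + l - k)) * e (l * ξ) := by
  unfold symbol Finsupp.sum
  rw [Finset.sum_mul]
  have h1 : ∀ k ∈ d.support, d k * e (k * ξ) * zak φ t ξ
      = ∑' l : ℤ, d k * φ (t + l - k) * e (l * ξ) := by
    intro k _
    unfold zak
    rw [← tsum_mul_left]
    rw [← (Equiv.addRight (-k)).tsum_eq (fun n : ℤ => d k * e (k * ξ) * (φ (t + n) * e (n * ξ)))]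
    apply tsum_congr
    intro l
    simp only [Equiv.coe_addRight]
    have h2 : e (k * ξ) * e (((l + -k : ℤ) : ℝ) * ξ) = e (l * ξ) := by
      rw [← e_add]; congr 1; push_cast; ring
    have h3 : t + ((l + -k : ℤ) : ℝ) = t + l - k := by push_cast; ring
    rw [h3]
    linear_combination (d k * φ (t + l - k)) * h2
  rw [Finset.sum_congr rfl h1, ← Summable.tsum_finsetSum]
  · apply tsum_congr
    intro l
    rw [Finset.sum_mul]
  · intro k _
    have h4 : Summable fun l : ℤ => d k * (φ ((t - k) + l) * e (l * ξ)) :=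
      (summable_zak h (t - k) ξ).mul_left _
    refine h4.congr fun l => ?_
    have : t - k + l = t + l - k := by ring
    rw [this]; ring

/-- The two-scale relation of the Zak transform. -/
lemma zak_two_scale {φ : ℝ → ℂ} {d : ℤ →₀ ℂ} (h : Refinable φ d) (t ξ : ℝ) :
    2 * zak φ (t / 2) (2 * ξ)
      = symbol d ξ * zak φ t ξ + symbol d (ξ + 1 / 2) * zak φ t (ξ + 1 / 2) := by
  rw [symbol_mul_zak h.supp, symbol_mul_zak h.supp]
  set g : ℤ → ℂ := fun l => (d.sum fun k a => a * φ (t + l - k)) with hg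
  have hgf : (support g).Finite := by
    have : support g ⊆ ⋃ k ∈ d.support, support fun l : ℤ => φ ((t - k) + l) := by
      intro l hl
      simp only [hg, Finsupp.sum, mem_support, ne_eq] at hl
      obtain ⟨k, hk, hk2⟩ := Finset.exists_ne_zero_of_sum_ne_zero hl
      simp only [Set.mem_iUnion]
      refine ⟨k, hk, ?_⟩
      simp only [mem_support, ne_eq]
      intro h0
      apply hk2
      have : t + l - k = t - k + l := by ring
      rw [this, h0, mul_zero]
    refine Set.Finite.subset ?_ this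
    exact Set.Finite.biUnion (d.support.finite_toSet) fun k _ => finite_supp h.supp _
  have hs : ∀ η : ℝ, Summable fun l : ℤ => g l * e (l * η) := by
    intro η
    apply summable_of_hasFiniteSupport
    refine hgf.subset ?_
    intro k hk
    simp only [mem_support, ne_eq, mul_eq_zero, not_or] at hk ⊢
    exact hk.1
  rw [← (hs ξ).tsum_add (hs (ξ + 1 / 2))]
  have hinj : Function.Injective (fun m : ℤ => 2 * m) := by
    intro a b hab
    simp only at hab
    omega
  have hsupp : (support fun l : ℤ => g l * e (l * ξ) + g l * e (l * (ξ + 1 / 2)))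
      ⊆ Set.range (fun m : ℤ => 2 * m) := by
    intro l hl
    rcases Int.even_or_odd' l with ⟨m, hm | hm⟩
    · exact ⟨m, hm.symm⟩
    · exfalso
      apply hl
      have h5 : e (l * (ξ + 1 / 2)) = - e (l * ξ) := by
        have : (l : ℝ) * (ξ + 1 / 2) = l * ξ + l * (1 / 2) := by ring
        rw [this, e_add, e_half_int]
        have : Odd l.natAbs := by rw [Int.natAbs_odd, hm]; exact odd_two_mul_add_one m
        rw [this.neg_one_pow]; ring
      simp only [h5]; ring
  rw [← hinj.tsum_eq hsupp]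
  unfold zak
  rw [← tsum_mul_left]
  apply tsum_congr
  intro m
  have h5 : e (((2 * m : ℤ) : ℝ) * (ξ + 1 / 2)) = e (((2 * m : ℤ) : ℝ) * ξ) := by
    have : ((2 * m : ℤ) : ℝ) * (ξ + 1 / 2) = ((2 * m : ℤ) : ℝ) * ξ + ((m : ℤ) : ℝ) := by
      push_cast; ring
    rw [this, e_add, e_int, mul_one]
  rw [h5]
  have h6 : φ (t / 2 + m) = g (2 * m) := by
    have : t / 2 + (m : ℝ) = (t + ((2 * m : ℤ) : ℝ)) / 2 := by push_cast; ring
    rw [this, h.dil]
  have h7 : e (m * (2 * ξ)) = e (((2 * m : ℤ) : ℝ) * ξ) := by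
    congr 1; push_cast; ring
  rw [h6, h7]
  ring

/-- **Obstruction.** If `D(2^j ξ + 1/2) = 0` for all `j ≥ 0` then `Zφ(s + 2^{-n}, 2^n ξ)` is
`e(-ξ) Zφ(s, 2^n ξ)`. -/
lemma zak_quasi {φ : ℝ → ℂ} {d : ℤ →₀ ℂ} (h : Refinable φ d) (ξ : ℝ)
    (hD : ∀ j : ℕ, symbol d (2 ^ j * ξ + 1 / 2) = 0) (n : ℕ) :
    ∀ s : ℝ, zak φ (s + (1 / 2) ^ n) (2 ^ n * ξ) = e (-ξ) * zak φ s (2 ^ n * ξ) := by
  induction n with
  | zero => intro s; simpa using zak_add_one φ s ξ
  | succ n ih =>
    intro s
    have h1 := zak_two_scale h (2 * s + (1 / 2) ^ n) (2 ^ n * ξ)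
    have h2 := zak_two_scale h (2 * s) (2 ^ n * ξ)
    rw [hD n, zero_mul, add_zero] at h1 h2
    rw [ih (2 * s)] at h1
    have e1 : (2 * s + (1 / 2) ^ n) / 2 = s + (1 / 2) ^ (n + 1) := by rw [pow_succ]; ring
    have e2 : (2 * s) / 2 = s := by ring
    have e3 : (2 : ℝ) * (2 ^ n * ξ) = 2 ^ (n + 1) * ξ := by rw [pow_succ]; ring
    rw [e1, e3] at h1
    rw [e2, e3] at h2
    have h4 : (2 : ℂ) ≠ 0 := two_ne_zero
    apply mul_left_cancel₀ h4
    rw [h1]
    linear_combination (- e (-ξ)) * h2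

/-- **Obstruction theorem.** Let `ξ` be a non-integer real number which is periodic modulo one
under doubling, with period `p`, and let `D` vanish at the points `2^j ξ + 1/2`. Then
`Zφ(t, ξ) = 0` for all `t`. -/
theorem zak_eq_zero_of_cycle {φ : ℝ → ℂ} {d : ℤ →₀ ℂ} (h : Refinable φ d) (ξ : ℝ)
    (hξ : ∀ m : ℤ, ξ ≠ m) (p : ℕ) (hp : 0 < p) (q : ℤ) (hq : 2 ^ p * ξ = ξ + q)
    (hD : ∀ j : ℕ, j < p → symbol d (2 ^ j * ξ + 1 / 2) = 0) (t : ℝ) : zak φ t ξ = 0 := by
  -- all multiples of the period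
  have hcyc : ∀ k : ℕ, ∃ m : ℤ, (2 : ℝ) ^ (p * k) * ξ = ξ + m := by
    intro k
    induction k with
    | zero => exact ⟨0, by simp⟩
    | succ k ih =>
      obtain ⟨m, hm⟩ := ih
      refine ⟨q + 2 ^ p * m, ?_⟩
      rw [mul_add, mul_one, pow_add]
      push_cast
      linear_combination (2 : ℝ) ^ p * hm + hq
  have hDall : ∀ j : ℕ, symbol d (2 ^ j * ξ + 1 / 2) = 0 := by
    intro j
    obtain ⟨m, hm⟩ := hcyc (j / p)
    have h1 : j = p * (j / p) + j % p := (Nat.div_add_mod j p).symm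
    have h2 : (2 : ℝ) ^ j * ξ + 1 / 2 = (2 ^ (j % p) * ξ + 1 / 2) + ((2 ^ (j % p) * m : ℤ) : ℝ) := by
      conv_lhs => rw [h1]
      rw [pow_add]
      push_cast
      linear_combination (2 : ℝ) ^ (j % p) * hm
    rw [h2, symbol_add_int]
    exact hD _ (Nat.mod_lt _ hp)
  have hq2 : ∀ k : ℕ, zak φ (t + (1 / 2) ^ (p * k)) ξ = e (-ξ) * zak φ t ξ := by
    intro k
    obtain ⟨m, hm⟩ := hcyc k
    have h1 := zak_quasi h ξ hDall (p * k) t
    rw [hm, zak_add_int, zak_add_int] at h1
    exact h1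
  have hlim : Tendsto (fun k : ℕ => zak φ (t + (1 / 2) ^ (p * k)) ξ) atTop (𝓝 (zak φ t ξ)) := by
    have h1 : Tendsto (fun k : ℕ => t + (1 / 2 : ℝ) ^ (p * k)) atTop (𝓝 (t + 0)) := by
      apply Tendsto.add tendsto_const_nhds
      have h2 : Tendsto (fun n : ℕ => (1 / 2 : ℝ) ^ n) atTop (𝓝 0) :=
        tendsto_pow_atTop_nhds_zero_of_lt_one (by norm_num) (by norm_num)
      apply h2.comp
      exact Filter.Tendsto.const_mul_atTop' hp tendsto_id
    rw [add_zero] at h1
    exact ((continuous_zak h.cont h.supp ξ).tendsto t).comp h1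
  simp only [hq2] at hlim
  have h3 := tendsto_nhds_unique hlim tendsto_const_nhds
  have h4 : e (-ξ) ≠ 1 := by
    intro h5
    unfold e at h5
    rw [Complex.exp_eq_one_iff] at h5
    obtain ⟨n, hn⟩ := h5
    have h6 : ((-ξ : ℝ) : ℂ) = n := by
      have hpi : (2 * (Real.pi : ℂ) * Complex.I) ≠ 0 := by
        simp [Real.pi_ne_zero]
      apply mul_left_cancel₀ hpi
      rw [hn]; ring
    have h7 : -ξ = n := by exact_mod_cast h6
    exact hξ (-n) (by push_cast; linarith)
  have h5 : (1 - e (-ξ)) * zak φ t ξ = 0 := by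
    linear_combination h3
  rcases mul_eq_zero.1 h5 with h6 | h6
  · exact absurd (by linear_combination - h6) h4
  · exact h6

/-! ### The counterexample: the hat function of half-width three -/

/-- the real hat function -/
noncomputable def hatr (t : ℝ) : ℝ := max 0 (1 - |t| / 3)

lemma hatr_of_ge {t : ℝ} (h : 3 ≤ t) : hatr t = 0 := by
  unfold hatr
  rw [abs_of_nonneg (by linarith)]
  apply max_eq_left; linarith

lemma hatr_of_le {t : ℝ} (h : t ≤ -3) : hatr t = 0 := by
  unfold hatr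
  rw [abs_of_nonpos (by linarith)]
  apply max_eq_left; linarith

lemma hatr_pos {t : ℝ} (h : 0 ≤ t) (h' : t ≤ 3) : hatr t = 1 - t / 3 := by
  unfold hatr
  rw [abs_of_nonneg h]
  apply max_eq_right; linarith

lemma hatr_neg {t : ℝ} (h : -3 ≤ t) (h' : t ≤ 0) : hatr t = 1 + t / 3 := by
  unfold hatr
  rw [abs_of_nonpos h']
  rw [max_eq_right] <;> linarith

lemma hatr_dil (t : ℝ) : hatr (t / 2)
    = 1 / 2 * hatr (t + 3) + hatr t + 1 / 2 * hatr (t - 3) := by
  rcases le_total t (-6) with h | h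
  · rw [hatr_of_le (t := t / 2) (by linarith), hatr_of_le (t := t + 3) (by linarith),
      hatr_of_le (t := t) (by linarith), hatr_of_le (t := t - 3) (by linarith)]
    ring
  rcases le_total t (-3) with h1 | h1
  · rw [hatr_neg (t := t / 2) (by linarith) (by linarith),
      hatr_neg (t := t + 3) (by linarith) (by linarith),
      hatr_of_le (t := t) (by linarith), hatr_of_le (t := t - 3) (by linarith)]
    ring
  rcases le_total t 0 with h2 | h2
  · rw [hatr_neg (t := t / 2) (by linarith) (by linarith),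
      hatr_pos (t := t + 3) (by linarith) (by linarith),
      hatr_neg (t := t) (by linarith) (by linarith), hatr_of_le (t := t - 3) (by linarith)]
    ring
  rcases le_total t 3 with h3 | h3
  · rw [hatr_pos (t := t / 2) (by linarith) (by linarith),
      hatr_of_ge (t := t + 3) (by linarith),
      hatr_pos (t := t) (by linarith) (by linarith),
      hatr_neg (t := t - 3) (by linarith) (by linarith)]
    ring
  rcases le_total t 6 with h4 | h4
  · rw [hatr_pos (t := t / 2) (by linarith) (by linarith),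
      hatr_of_ge (t := t + 3) (by linarith),
      hatr_of_ge (t := t) (by linarith),
      hatr_pos (t := t - 3) (by linarith) (by linarith)]
    ring
  · rw [hatr_of_ge (t := t / 2) (by linarith), hatr_of_ge (t := t + 3) (by linarith),
      hatr_of_ge (t := t) (by linarith), hatr_of_ge (t := t - 3) (by linarith)]
    ring

/-- the hat function of half-width three -/
noncomputable def hat (t : ℝ) : ℂ := ((max 0 (1 - |t| / 3) : ℝ) : ℂ)

/-- its dilation coefficients: `d_{-3} = d_3 = 1/2`, `d_0 = 1` -/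
noncomputable def hatCoeff : ℤ →₀ ℂ :=
  Finsupp.single (-3) (1 / 2) + Finsupp.single 0 1 + Finsupp.single 3 (1 / 2)

lemma hatCoeff_sum (g : ℤ → ℂ) : (hatCoeff.sum fun k a => a * g k)
    = 1 / 2 * g (-3) + g 0 + 1 / 2 * g 3 := by
  unfold hatCoeff
  rw [Finsupp.sum_add_index', Finsupp.sum_add_index']
  · simp
  all_goals first
    | (intro a; simp)
    | (intro a b c; ring)

lemma refinable_hat : Refinable hat hatCoeff where
  ne := by
    intro h
    have := congrFun h 0
    simp [hat] at this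
  cont := by
    unfold hat
    fun_prop
  supp := by
    apply HasCompactSupport.of_support_subset_isCompact (isCompact_Icc (a := (-3 : ℝ)) (b := 3))
    intro t ht
    by_contra hn
    apply ht
    rw [Set.mem_Icc, not_and_or, not_le, not_le] at hn
    change ((hatr t : ℝ) : ℂ) = 0
    rcases hn with hn | hn
    · rw [hatr_of_le hn.le]; simp
    · rw [hatr_of_ge hn.le]; simp
  dil := by
    intro t
    rw [hatCoeff_sum (fun k => hat (t - k))]
    have h := hatr_dil t
    have h' := congrArg (fun x : ℝ => (x : ℂ)) h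
    simp only [Complex.ofReal_add, Complex.ofReal_mul, Complex.ofReal_div, Complex.ofReal_one,
      Complex.ofReal_ofNat] at h'
    have e1 : t - ((-3 : ℤ) : ℝ) = t + 3 := by push_cast; ring
    have e2 : t - ((0 : ℤ) : ℝ) = t := by push_cast; ring
    have e3 : t - ((3 : ℤ) : ℝ) = t - 3 := by push_cast; ring
    rw [e1, e2, e3]
    exact h'

lemma symbol_hat (ξ : ℝ) : symbol hatCoeff ξ = ((1 + Real.cos (6 * Real.pi * ξ) : ℝ) : ℂ) := by
  unfold symbol
  rw [hatCoeff_sum (fun k => e (k * ξ))]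
  have h1 : e (((-3 : ℤ) : ℝ) * ξ) = Complex.exp (-(((6 * Real.pi * ξ : ℝ) : ℂ) * Complex.I)) := by
    unfold e; congr 1; push_cast; ring
  have h2 : e (((3 : ℤ) : ℝ) * ξ) = Complex.exp ((((6 * Real.pi * ξ : ℝ) : ℂ) * Complex.I)) := by
    unfold e; congr 1; push_cast; ring
  have h3 : e (((0 : ℤ) : ℝ) * ξ) = 1 := by
    unfold e; simp
  rw [h1, h2, h3, Complex.ofReal_add, Complex.ofReal_one, Complex.ofReal_cos, Complex.cos]
  rw [neg_mul]
  ring

lemma not_symmetricZeros_hat : ¬ SymmetricZeros hatCoeff := by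
  rintro ⟨ξ, -, h1, h2⟩
  rw [symbol_hat] at h1 h2
  have h1' : 1 + Real.cos (6 * Real.pi * ξ) = 0 := by exact_mod_cast h1
  have h2' : 1 + Real.cos (6 * Real.pi * (ξ + 1 / 2)) = 0 := by exact_mod_cast h2
  have h3 : 6 * Real.pi * (ξ + 1 / 2) = (6 * Real.pi * ξ + Real.pi) + 2 * Real.pi := by ring
  rw [h3, Real.cos_add_two_pi, Real.cos_add_pi] at h2'
  linarith

lemma zak_hat (t : ℝ) : zak hat t (1 / 3) = 0 := by
  apply zak_eq_zero_of_cycle refinable_hat (1 / 3) _ 2 (by norm_num) 1 (by norm_num)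
  · intro j hj
    rw [symbol_hat]
    have : Real.cos (6 * Real.pi * (2 ^ j * (1 / 3) + 1 / 2)) = -1 := by
      interval_cases j
      · have : 6 * Real.pi * (2 ^ 0 * (1 / 3) + 1 / 2) = Real.pi + (2 : ℕ) * (2 * Real.pi) := by
          push_cast; ring
        rw [this, Real.cos_add_nat_mul_two_pi, Real.cos_pi]
      · have : 6 * Real.pi * (2 ^ 1 * (1 / 3) + 1 / 2) = Real.pi + (3 : ℕ) * (2 * Real.pi) := by
          push_cast; ring
        rw [this, Real.cos_add_nat_mul_two_pi, Real.cos_pi]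
    rw [this]; simp
  · intro m hm
    have : (1 : ℝ) = 3 * m := by linarith
    have h2 : (1 : ℤ) = 3 * m := by exact_mod_cast this
    omega

end Pool.Agent.W738.RZ
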